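import Pool.Agent.K7.H12.GL.Defs

/-!
# Job FROZEN of project GL: the frozen statement from the theorem for all sets of points
-/

set_option autoImplicit false

namespace Pool.Agent.K7.H81.GL

open Pool.Agent.K7.H12.GL

/-- **Job FROZEN.** -/
theorem stFrozen (hR : StRank) (hB : StBase) (hM : StMain) : StFrozen := by
  intro L _ _ _ _ r hr
  obtain ⟨ρ, hG, h0, h1⟩ := hR L r hr
  have hcov : ∀ p ∈ {p : L | IsAtom p}, (⊥ : L) ⋖ p := fun p hp => bot_covBy_iff.2 hp
  obtain ⟨f, hf⟩ := hM L ρ hG (hB L ρ hG) ⊥ {p : L | IsAtom p} hcov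
  have htp : tp (⊥ : L) {p : L | IsAtom p} = ⊤ := by
    unfold tp
    rw [sSup_atoms_eq_top, bot_sup_eq]
  rw [htp, h0, h1] at hf
  simp only [zero_add] at hf
  -- ranks
  have hrk : ∀ p : L, IsAtom p → ∀ i, 1 ≤ i → i ≤ r → ρ (f p i) = i := by
    intro p hp i hi
    induction i, hi using Nat.le_induction with
    | base =>
      intro _
      rw [(hf p hp).1, hG.cov _ _ (hcov p hp), h0]
    | succ i hi ih =>
      intro hir
      rw [hG.cov _ _ ((hf p hp).2.1 i hi (by omega)), ih (by omega)]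
  -- monotonicity
  have hmono : ∀ p : L, IsAtom p → ∀ i, 1 ≤ i → ∀ j, i ≤ j → j ≤ r → f p i ≤ f p j := by
    intro p hp i hi j hij
    induction j, hij using Nat.le_induction with
    | base => intro _; exact le_refl _
    | succ j hij ih =>
      intro hjr
      exact (ih (by omega)).trans ((hf p hp).2.1 j (by omega) (by omega)).le
  -- the rank is at least two
  have hr2 : 1 < r := by
    by_contra hcon
    push Not at hcon
    have hall : ∀ x : L, x = ⊥ ∨ x = ⊤ := by
      intro x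
      by_contra hx
      push Not at hx
      have h2 := hG.mono (bot_lt_iff_ne_bot.2 hx.1)
      have h3 := hG.mono (lt_top_iff_ne_top.2 hx.2)
      omega
    have hfin : (Set.univ : Set L).Finite := by
      refine (Set.toFinite ({⊥, ⊤} : Set L)).subset fun x _ => ?_
      rcases hall x with h | h
      · exact Or.inl h
      · exact Or.inr h
    exact Set.infinite_univ hfin
  have heq : ∀ x y : L, x ≤ y → ρ x = ρ y → x = y := by
    intro x y hxy hρ
    rcases hxy.eq_or_lt with h | h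
    · exact h
    · have := hG.mono h
      omega
  have hne : ∀ x : L, 1 ≤ ρ x → ρ x < r → x ≠ ⊥ ∧ x ≠ ⊤ := by
    intro x hx1 hx2
    constructor
    · rintro rfl
      omega
    · rintro rfl
      omega
  refine ⟨{m | ∃ p, IsAtom p ∧ m = {x | ∃ i, 1 ≤ i ∧ i < r ∧ x = f p i}}, ?_, ?_, ?_⟩
  · rintro m ⟨p, hp, rfl⟩
    refine ⟨?_, ?_, ?_⟩
    · rintro x ⟨i, hi1, hi2, rfl⟩
      have := hrk p hp i hi1 hi2.le
      exact hne _ (by omega) (by omega)
    · rintro x ⟨i, hi1, hi2, rfl⟩ y ⟨j, hj1, hj2, rfl⟩ _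
      rcases le_total i j with h | h
      · exact Or.inl (hmono p hp i hi1 j h hj2.le)
      · exact Or.inr (hmono p hp j hj1 i h hi2.le)
    · intro m' hm' hc hsub
      refine Set.Subset.antisymm (fun x hx => ?_) hsub
      obtain ⟨hx0, hx1⟩ := hm' x hx
      have h2 := hG.mono (bot_lt_iff_ne_bot.2 hx0)
      have h3 := hG.mono (lt_top_iff_ne_top.2 hx1)
      rw [h0] at h2
      rw [h1] at h3
      refine ⟨ρ x, h2, h3, ?_⟩
      have h4 := hrk p hp (ρ x) h2 h3.le
      have h5 : f p (ρ x) ∈ m' := hsub ⟨ρ x, h2, h3, rfl⟩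
      by_contra hxne
      rcases hc hx h5 hxne with h | h
      · exact hxne (heq _ _ h h4.symm)
      · exact hxne (heq _ _ h h4).symm
  · rintro m ⟨p, hp, rfl⟩ m' ⟨q, hq, rfl⟩ hmm
    show Disjoint (id _) (id _)
    simp only [id]
    rw [Set.disjoint_left]
    rintro x ⟨i, hi1, hi2, rfl⟩ ⟨j, hj1, hj2, hij⟩
    have h2 := hrk p hp i hi1 hi2.le
    have h3 := hrk q hq j hj1 hj2.le
    rw [hij, h3] at h2
    subst h2
    exact hmm (by rw [(hf p hp).2.2.2 q hq j hi1 hi2 hij])
  · intro x hx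
    exact ⟨_, ⟨x, hx, rfl⟩, 1, le_refl 1, hr2, ((hf x hx).1).symm⟩

end Pool.Agent.K7.H81.GL
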