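import Pool.Agent.K7.H12.GL.Defs

/-!
# Job RANK of project GL: the rank function of a semimodular lattice of finite height
-/

set_option autoImplicit false

namespace Pool.Agent.K7.H81.GL

open Pool.Agent.K7.H12.GL

variable {L : Type} [CompleteLattice L]

/-- a saturated chain of length `n` from `s` to `t` -/
def Sat : ℕ → L → L → Prop
  | 0, s, t => s = t
  | n + 1, s, t => ∃ c, s ⋖ c ∧ Sat n c t

/-- a chain of length `n` that starts in `s`, below `t` -/
def Ch : ℕ → L → L → Prop
  | 0, s, t => s ≤ t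
  | n + 1, s, t => ∃ e, s < e ∧ Ch n e t

theorem Ch.le : ∀ {n : ℕ} {s t : L}, Ch n s t → s ≤ t
  | 0, _, _, h => h
  | _ + 1, _, _, ⟨_, h1, h2⟩ => h1.le.trans h2.le

theorem Ch.mono : ∀ {n : ℕ} {s s' t : L}, Ch n s t → s' ≤ s → Ch n s' t
  | 0, _, _, _, h, h' => h'.trans h
  | _ + 1, _, _, _, ⟨e, h1, h2⟩, h' => ⟨e, h'.trans_lt h1, h2⟩

theorem Ch.append : ∀ {n : ℕ} {s b t : L}, Ch n s b → b < t → Ch (n + 1) s t
  | 0, _, _, t, h, h' => ⟨t, lt_of_le_of_lt h h', le_refl t⟩
  | _ + 1, _, _, _, ⟨e, h1, h2⟩, h' => ⟨e, h1, h2.append h'⟩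

theorem Sat.ch : ∀ {n : ℕ} {s t : L}, Sat n s t → Ch n s t
  | 0, _, _, h => le_of_eq h
  | _ + 1, _, _, ⟨c, h1, h2⟩ => ⟨c, h1.lt, h2.ch⟩

theorem Sat.append : ∀ {n : ℕ} {s b t : L}, Sat n s b → b ⋖ t → Sat (n + 1) s t
  | 0, _, _, t, h, h' => ⟨t, by
      have h1 : _ = _ := h
      rw [h1]; exact h', rfl⟩
  | _ + 1, _, _, _, ⟨c, h1, h2⟩, h' => ⟨c, h1, h2.append h'⟩

theorem Ch.height {h : L → ℕ} (hh : StrictMono h) :
    ∀ {n : ℕ} {s t : L}, Ch n s t → h s + n ≤ h t
  | 0, _, _, hc => hh.monotone hc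
  | n + 1, s, t, ⟨e, h1, h2⟩ => by
    have h3 := Ch.height hh h2
    have h4 := hh h1
    omega

theorem exists_cover {h : L → ℕ} (hh : StrictMono h) {u t : L} (hut : u < t) :
    ∃ c, u ⋖ c ∧ c ≤ t := by
  have hne : (h '' {c | u < c ∧ c ≤ t}).Nonempty := ⟨h t, t, ⟨hut, le_refl t⟩, rfl⟩
  obtain ⟨c, ⟨hc1, hc2⟩, hc3⟩ := Nat.sInf_mem hne
  refine ⟨c, ⟨hc1, fun w hw1 hw2 => ?_⟩, hc2⟩
  have h1 : sInf (h '' {c | u < c ∧ c ≤ t}) ≤ h w :=
    Nat.sInf_le ⟨w, ⟨hw1, hw2.le.trans hc2⟩, rfl⟩
  have h2 := hh hw2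
  omega

theorem exists_sat {h : L → ℕ} (hh : StrictMono h) :
    ∀ (n : ℕ) {u t : L}, u ≤ t → h t - h u ≤ n → ∃ k, Sat k u t := by
  intro n
  induction n with
  | zero =>
    intro u t hut hn
    rcases hut.eq_or_lt with rfl | hlt
    · exact ⟨0, rfl⟩
    · have := hh hlt
      omega
  | succ n ih =>
    intro u t hut hn
    rcases hut.eq_or_lt with rfl | hlt
    · exact ⟨0, rfl⟩
    · obtain ⟨c, hc1, hc2⟩ := exists_cover hh hlt
      have h1 := hh hc1.lt
      have h2 := hh.monotone hc2
      obtain ⟨k, hk⟩ := ih hc2 (by omega)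
      exact ⟨k + 1, c, hc1, hk⟩

/-- Jordan-Dedekind -/
theorem jd [IsUpperModularLattice L] {h : L → ℕ} (hh : StrictMono h) :
    ∀ (n : ℕ) {m : ℕ} {s t : L}, Sat n s t → Ch m s t → m ≤ n := by
  intro n
  induction n using Nat.strong_induction_on with
  | _ n ih =>
    intro m s t hs hc
    cases n with
    | zero =>
      have hst : s = t := hs
      cases m with
      | zero => exact le_refl 0
      | succ m =>
        obtain ⟨e, h1, h2⟩ := hc
        have h3 := h2.le
        rw [hst] at h1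
        exact absurd h3 (not_le_of_gt h1)
    | succ n =>
      obtain ⟨c, hsc, hct⟩ := hs
      cases m with
      | zero => exact Nat.zero_le _
      | succ m =>
        obtain ⟨e, hse, het⟩ := hc
        by_cases hce : c ≤ e
        · have := ih n (Nat.lt_succ_self n) hct (het.mono hce)
          omega
        · have hinf : c ⊓ e = s := by
            have h1 : s ≤ c ⊓ e := le_inf hsc.le hse.le
            have h2 : c ⊓ e < c := lt_of_le_of_ne inf_le_left fun h => hce (inf_eq_left.1 h)
            rcases h1.eq_or_lt with h | h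
            · exact h.symm
            · exact absurd h2 (hsc.2 h)
          have hcov : e ⋖ c ⊔ e := IsUpperModularLattice.covBy_sup_of_inf_covBy (by
            rw [hinf]; exact hsc)
          have hle : c ⊔ e ≤ t := sup_le hct.ch.le het.le
          obtain ⟨k, hk⟩ := exists_sat hh _ hle (le_refl _)
          have hclt : c < c ⊔ e := by
            refine lt_of_le_of_ne le_sup_left fun h => ?_
            have h1 : e ≤ c := by rw [h]; exact le_sup_right
            rcases h1.eq_or_lt with h2 | h2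
            · exact hce h2.ge
            · exact hsc.2 hse h2
          have h1 : k + 1 ≤ n := ih n (Nat.lt_succ_self n) hct ⟨c ⊔ e, hclt, hk.ch⟩
          have h2 : m ≤ k + 1 := ih (k + 1) (by omega) ⟨c ⊔ e, hcov, hk⟩ het
          omega

/-- **Job RANK.** -/
theorem stRank : StRank := by
  intro L _ _ r hr
  have hfin : ∀ x : L, Order.height x < ⊤ := by
    intro x
    refine lt_of_le_of_lt (Order.height_mono le_top) ?_
    rw [hr]
    exact ENat.natCast_lt_top r
  have hcoe : ∀ x : L, ((Order.height x).toNat : ℕ∞) = Order.height x := fun x =>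
    ENat.natCast_toNat (hfin x).ne
  have hh : StrictMono fun x : L => (Order.height x).toNat := by
    intro x y hxy
    have h1 := Order.height_strictMono hxy (hfin x)
    rw [← hcoe x, ← hcoe y] at h1
    exact_mod_cast h1
  have hch : ∀ (n : ℕ) (x : L), Order.height x = n → Ch n ⊥ x := by
    intro n
    induction n with
    | zero => intro x _; exact bot_le
    | succ n ih =>
      intro x hx
      have h1 : Order.height x = (n : ℕ∞) + 1 := by rw [hx]; push_cast; rfl
      obtain ⟨-, ⟨y, hy, hyn⟩, -⟩ := (Order.height_eq_coe_add_one_iff).1 h1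
      exact (ih y hyn).append hy
  refine ⟨fun x => (Order.height x).toNat, ⟨hh, ?_, ?_⟩, ?_, ?_⟩
  · intro x y hxy
    have h1 : (Order.height x).toNat < (Order.height y).toNat := hh hxy.lt
    obtain ⟨k, hk⟩ := exists_sat hh _ (bot_le : (⊥ : L) ≤ x) (le_refl _)
    have h2 := Ch.height hh hk.ch
    have h3 := jd hh (k + 1) (hk.append hxy) (hch _ y (hcoe y).symm)
    show (Order.height y).toNat = (Order.height x).toNat + 1
    omega
  · intro a p b hap hab hpb
    have hinf : p ⊓ b = a := by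
      have h1 : a ≤ p ⊓ b := le_inf hap.le hab
      have h2 : p ⊓ b < p := lt_of_le_of_ne inf_le_left fun h => hpb (inf_eq_left.1 h)
      rcases h1.eq_or_lt with h | h
      · exact h.symm
      · exact absurd h2 (hap.2 h)
    rw [sup_comm]
    exact IsUpperModularLattice.covBy_sup_of_inf_covBy (by rw [hinf]; exact hap)
  · simp
  · show (Order.height (⊤ : L)).toNat = r
    rw [hr]
    simp

end Pool.Agent.K7.H81.GL
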